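import Pool.Agent.Helper8_HK.Stmt3

/-! Module KFL of squad HK: the residue and the reversal of the edge. -/

set_option autoImplicit false

namespace Pool.Agent.HK.H79

open Polynomial Filter

section
variable {F : Type} [Field F]

lemma unif_ne : unif F ≠ 0 := by
  unfold unif
  exact HahnSeries.single_ne_zero one_ne_zero

lemma flip_det : (Matrix.of ![![(0 : Kinf F), 1], ![unif F, 0]]).det ≠ 0 := by
  rw [Matrix.det_fin_two]
  simp [unif_ne]

lemma flip_val : ((flipM : GLK F) : Matrix (Fin 2) (Fin 2) (Kinf F))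
    = Matrix.of ![![(0 : Kinf F), 1], ![unif F, 0]] := by
  unfold flipM mat
  rw [dif_pos flip_det]
  rfl

lemma flip00 : (flipM : GLK F) 0 0 = 0 := by
  show ((flipM : GLK F) : Matrix (Fin 2) (Fin 2) (Kinf F)) 0 0 = 0
  rw [flip_val]; rfl

lemma flip01 : (flipM : GLK F) 0 1 = 1 := by
  show ((flipM : GLK F) : Matrix (Fin 2) (Fin 2) (Kinf F)) 0 1 = 1
  rw [flip_val]; rfl

lemma flip10 : (flipM : GLK F) 1 0 = unif F := by
  show ((flipM : GLK F) : Matrix (Fin 2) (Fin 2) (Kinf F)) 1 0 = unif F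
  rw [flip_val]; rfl

lemma flip11 : (flipM : GLK F) 1 1 = 0 := by
  show ((flipM : GLK F) : Matrix (Fin 2) (Fin 2) (Kinf F)) 1 1 = 0
  rw [flip_val]; rfl

end

lemma sum_inv_roots {C : Type} [Field C] [IsAlgClosed C] (n : ℕ) (g : C → C) :
    ∑ ζ ∈ Polynomial.nthRootsFinset n (1 : C), g ζ⁻¹
      = ∑ ζ ∈ Polynomial.nthRootsFinset n (1 : C), g ζ := by
  classical
  rcases Nat.eq_zero_or_pos n with hn | hn
  · subst hn
    simp [Polynomial.nthRootsFinset]
  · have hm : ∀ ζ : C, ζ ∈ Polynomial.nthRootsFinset n (1 : C) →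
        ζ⁻¹ ∈ Polynomial.nthRootsFinset n (1 : C) := by
      intro ζ hζ
      rw [Polynomial.mem_nthRootsFinset hn] at hζ ⊢
      rw [inv_pow, hζ, inv_one]
    exact Finset.sum_nbij' (fun ζ => ζ⁻¹) (fun ζ => ζ⁻¹) hm hm (fun ζ _ => inv_inv ζ)
      (fun ζ _ => inv_inv ζ) (fun ζ _ => rfl)

theorem kfl (hRES : RESStmt) (hNIC : NICStmt) (hHOL : HOLStmt) : KFLStmt := by
  intro F _ _ C _ _ _ _ ι ρ hc f hf
  have hu : ι (unif F) ≠ 0 := by
    intro h
    exact unif_ne ((map_eq_zero ι).1 h)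
  have hρ : ρ ≠ 0 := by
    intro h
    have := hc.sq
    rw [h, zero_pow two_ne_zero] at this
    exact hu (inv_eq_zero.1 this.symm)
  have hn1 : Nice ρ f := (hNIC F C ι ρ hc).2.2.2.2.2 f hf
  have hn2 : Nice ρ (slash ι flipM f) :=
    (hNIC F C ι ρ hc).2.2.2.2.2 _ ((hHOL F C ι hc.ok f hf).1 flipM)
  have h1 := (hRES F C ι ρ hc).1 f hn1
  have h2 := (hRES F C ι ρ hc).1 _ hn2
  have h3 : ∀ k : ℕ, SK F ρ k (slash ι flipM f) = - SK F ρ k f := by
    intro k
    unfold SK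
    rw [neg_neg, ← sum_inv_roots (Fintype.card F ^ k - 1)
      (fun ζ => slash ι flipM f (ρ * ζ) * (ρ * ζ)), ← Finset.sum_neg_distrib]
    refine Finset.sum_congr rfl fun ζ hζ => ?_
    have hζ0 : ζ ≠ 0 := by
      rcases Nat.eq_zero_or_pos (Fintype.card F ^ k - 1) with hn | hn
      · rw [hn] at hζ
        simp [Polynomial.nthRootsFinset] at hζ
      · rw [Polynomial.mem_nthRootsFinset hn] at hζ
        intro h
        rw [h, zero_pow hn.ne'] at hζ
        exact zero_ne_one hζ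
    unfold slash
    rw [flip00, flip01, flip10, flip11]
    simp only [map_zero, map_one, zero_mul, one_mul, mul_zero, add_zero, zero_add, zero_sub,
      map_neg]
    have h5 : ι (unif F) * ρ ^ 2 = 1 := by
      rw [hc.sq, mul_inv_cancel₀ hu]
    have h6 : 1 / (ι (unif F) * (ρ * ζ⁻¹)) = ρ * ζ := by
      rw [div_eq_iff (mul_ne_zero hu (mul_ne_zero hρ (inv_ne_zero hζ0)))]
      field_simp
      linear_combination -h5
    rw [h6]
    have h7 : ((ι (unif F) * (ρ * ζ⁻¹)) ^ 2)⁻¹ = (ρ * ζ) ^ 2 := by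
      rw [← inv_pow, ← one_div, h6]
    rw [h7]
    have h8 : ζ * ζ⁻¹ = 1 := mul_inv_cancel₀ hζ0
    linear_combination (f (ρ * ζ) * ρ * ζ * (ζ * ζ⁻¹)) * h5 + (f (ρ * ζ) * ρ * ζ) * h8
  have h4 : Tendsto (fun k => SK F ρ k (slash ι flipM f)) atTop (nhds (- res F ρ f)) := by
    simp only [h3]
    exact h1.neg
  exact tendsto_nhds_unique h2 h4

end Pool.Agent.HK.H79
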