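import Pool.Agent.Helper8_HK.Stmt3

/-! Module NIC of squad HK: holomorphic functions are nice on the standard circle. -/

set_option autoImplicit false

namespace Pool.Agent.HK.H79

open Polynomial Filter

lemma Elm_mono {C : Type} [Field C] {S T : Set C} (h : S ⊆ T) : Elm S ≤ Elm T := by
  unfold Elm
  refine Submodule.span_mono ?_
  rintro f (hf | ⟨a, ha, j, hf⟩)
  · exact Or.inl hf
  · exact Or.inr ⟨a, h ha, j, hf⟩

theorem nic (hIMA : IMAStmt) (hELM : ELMStmt) : NICStmt := by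
  intro F _ _ C _ _ _ _ ι ρ hc
  obtain ⟨-, -, h3, -, -, -, -, h8, -, -, h11⟩ := hIMA F C ι hc.ok
  have hq : (1 : ℝ) < ((Fintype.card F : ℕ) : ℝ) := by
    exact_mod_cast Fintype.one_lt_card
  have hu : ‖ι (unif F)‖ = (((Fintype.card F : ℕ) : ℝ))⁻¹ := by
    have h := h3 (unif F) 1 (fun i hi => by
      unfold unif
      exact HahnSeries.coeff_single_of_ne hi.ne) (by
      unfold unif
      rw [HahnSeries.coeff_single_same]
      exact one_ne_zero)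
    rw [h, zpow_neg, zpow_one]
  have hsq : ‖ρ‖ ^ 2 = ((Fintype.card F : ℕ) : ℝ) := by
    rw [← norm_pow, hc.sq, norm_inv, hu, inv_inv]
  have h0 : 0 ≤ ‖ρ‖ := norm_nonneg _
  have h1 : 1 < ‖ρ‖ := by nlinarith
  have h2 : ‖ρ‖ < ((Fintype.card F : ℕ) : ℝ) := by nlinarith
  have h4 : ∀ z : C, ‖z‖ = ‖ρ‖ → z ∈ OmN ι 1 ∧ imz ι z = ‖ρ‖ := by
    intro z hz
    have h5 := h11 z 0 (by rw [zpow_zero, hz]; exact h1) (by
      rw [zero_add, zpow_one, hz]; exact h2)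
    refine ⟨(h8 1 z).2 ⟨h5.1, ?_, ?_⟩, by rw [h5.2, hz]⟩
    · rw [pow_one, hz]; exact h2.le
    · rw [pow_one, h5.2, hz]
      exact (inv_le_one_of_one_le₀ hq.le).trans h1.le
  have h5 : ∀ a ∉ OmN ι 1, ‖a‖ ≠ ‖ρ‖ := fun a ha h => ha (h4 a h).1
  refine ⟨h1, h2, hsq, h4, h5, ?_⟩
  intro f hf ε hε
  obtain ⟨P, Q, hQ, hPQ⟩ := hf 1 ε hε
  obtain ⟨e, he, hee⟩ := (hELM C (OmN ι 1)).1 P Q hQ
  refine ⟨e, Elm_mono (fun a ha => h5 a ha) he, fun z hz => ?_⟩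
  have h6 := (h4 z hz).1
  rw [← hee z h6]
  exact (hPQ z h6).le

end Pool.Agent.HK.H79
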